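import Pool.Agent.H63.AC.Stm
import Pool.Graph.R_pool_sql_team_79ade240.H10.DauV

/-!
The oscillatory integral with the phase `d t log t` (project AC of helper63).
-/

set_option autoImplicit false

open Complex MeasureTheory Filter Topology Set

namespace Pool.Agent.H807.AC

open Pool.Agent.H63.AC

theorem expo (b t T H : ℝ) (hH : H ≠ 0) :
    (ln b t - I * T) ^ 2 / (H : ℂ) ^ 2 =
      (((b ^ 2 - (t - T) ^ 2) / H ^ 2 : ℝ) : ℂ) + ((2 * b * (t - T) / H ^ 2 : ℝ) : ℂ) * I := by
  have hHc : (H : ℂ) ≠ 0 := by exact_mod_cast hH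
  unfold ln
  push_cast
  field_simp
  ring_nf
  rw [I_sq]
  ring

theorem norm_wt (b t T H : ℝ) (hH : H ≠ 0) :
    ‖wt T H (ln b t)‖ = Real.exp ((b ^ 2 - (t - T) ^ 2) / H ^ 2) := by
  unfold wt
  rw [Complex.norm_exp, expo b t T H hH]
  congr 1
  rw [Complex.add_re, Complex.ofReal_re, Complex.re_ofReal_mul, Complex.I_re, mul_zero, add_zero]

theorem norm_wt_le (b t T H : ℝ) (hH : 1 ≤ H) :
    ‖wt T H (ln b t)‖ ≤ Real.exp (b ^ 2) * Real.exp (-((t - T) ^ 2 / H ^ 2)) := by
  have h0 : 0 < H := by linarith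
  rw [norm_wt b t T H h0.ne', ← Real.exp_add]
  apply Real.exp_le_exp.2
  rw [sub_div, sub_eq_add_neg]
  have h1 : b ^ 2 / H ^ 2 ≤ b ^ 2 := div_le_self (sq_nonneg b) (by nlinarith)
  linarith

theorem gauss_le {b x H : ℝ} (hb : 0 ≤ b) (hH : 1 ≤ H) :
    2 * (b + |x|) / H ^ 2 * Real.exp (-(x ^ 2 / H ^ 2)) ≤
      2 * (b + 1) / H * Real.exp (-(1 / (2 * H ^ 2)) * x ^ 2) := by
  have h0 : 0 < H := by linarith
  set E := Real.exp (-(1 / (2 * H ^ 2)) * x ^ 2) with hE
  have hE0 : 0 < E := Real.exp_pos _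
  have hE1 : E ≤ 1 := by
    rw [hE, Real.exp_le_one_iff]
    have : 0 ≤ 1 / (2 * H ^ 2) * x ^ 2 := by positivity
    linarith
  have hsq : Real.exp (-(x ^ 2 / H ^ 2)) = E * E := by
    rw [hE, ← Real.exp_add]
    congr 1
    field_simp
    ring
  have hy : |x| / H * E ≤ 1 := by
    have h1 : |x| / H ≤ Real.exp ((1 / (2 * H ^ 2)) * x ^ 2) := by
      have h2 := Real.add_one_le_exp ((1 / (2 * H ^ 2)) * x ^ 2)
      have h3 : (1 / (2 * H ^ 2)) * x ^ 2 = (|x| / H) ^ 2 / 2 := by
        rw [div_pow, sq_abs]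
        field_simp
      rw [h3] at h2 ⊢
      nlinarith [sq_nonneg (|x| / H - 1)]
    have h4 : Real.exp ((1 / (2 * H ^ 2)) * x ^ 2) * E = 1 := by
      rw [hE, ← Real.exp_add]
      simp
    calc |x| / H * E ≤ Real.exp ((1 / (2 * H ^ 2)) * x ^ 2) * E :=
          mul_le_mul_of_nonneg_right h1 hE0.le
      _ = 1 := h4
  rw [hsq]
  have h1 : 2 * (b + |x|) / H ^ 2 * (E * E) = 2 / H * E * (b / H * E + |x| / H * E) := by
    field_simp
  have h2 : b / H * E ≤ b := by
    calc b / H * E ≤ b / H * 1 := mul_le_mul_of_nonneg_left hE1 (by positivity)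
      _ ≤ b := by rw [mul_one]; exact div_le_self hb hH
  rw [h1]
  calc 2 / H * E * (b / H * E + |x| / H * E) ≤ 2 / H * E * (b + 1) :=
        mul_le_mul_of_nonneg_left (add_le_add h2 hy) (by positivity)
    _ = 2 * (b + 1) / H * E := by ring

theorem gauss_int {T H u v : ℝ} (hH : 1 ≤ H) (huv : u ≤ v) :
    ∫ t in u..v, Real.exp (-(1 / (2 * H ^ 2)) * (t - T) ^ 2) ≤ 3 * H := by
  have h0 : 0 < H := by linarith
  have hc : 0 < 1 / (2 * H ^ 2) := by positivity
  have hint : Integrable (fun t : ℝ => Real.exp (-(1 / (2 * H ^ 2)) * (t - T) ^ 2)) :=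
    (integrable_exp_neg_mul_sq hc).comp_sub_right T
  rw [intervalIntegral.integral_of_le huv]
  refine (setIntegral_le_integral hint (Eventually.of_forall fun t => (Real.exp_pos _).le)).trans ?_
  rw [integral_sub_right_eq_self (fun t : ℝ => Real.exp (-(1 / (2 * H ^ 2)) * t ^ 2)) T,
    integral_gaussian]
  rw [Real.sqrt_le_left (by positivity)]
  have h1 := Real.pi_lt_four
  rw [div_div_eq_mul_div, div_one]
  nlinarith [sq_nonneg H, Real.pi_pos]

/-- the derivative of the weight along the line -/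
theorem der_wt (b T H t : ℝ) :
    HasDerivAt (fun t : ℝ => wt T H (ln b t))
      (wt T H (ln b t) * (2 * ((b : ℂ) + (t - T) * I) * I / (H : ℂ) ^ 2)) t := by
  have h1 : HasDerivAt (fun t : ℝ => (t : ℂ)) 1 t := (hasDerivAt_id t).ofReal_comp
  have h2 : HasDerivAt (fun t : ℝ => ln b t - I * T) (1 * I) t :=
    ((h1.mul_const I).const_add (b : ℂ)).sub_const (I * T)
  have h3 := ((h2.pow 2).div_const ((H : ℂ) ^ 2)).cexp
  refine h3.congr_deriv ?_
  show cexp ((ln b t - I * T) ^ 2 / (H : ℂ) ^ 2) *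
    (((2 : ℕ) : ℂ) * (ln b t - I * T) ^ (2 - 1) * (1 * I) / (H : ℂ) ^ 2) =
    cexp ((ln b t - I * T) ^ 2 / (H : ℂ) ^ 2) * _
  congr 1
  unfold ln
  push_cast
  ring

theorem t_osc : S_osc := by
  intro b A β d hA hd
  have hd1 : (1 : ℝ) ≤ d := by exact_mod_cast hd
  set c1 : ℝ := 6 * (|b| + 1) + 2 * A with hc1
  have hb0 : 0 ≤ |b| := abs_nonneg b
  refine ⟨(12 + 2 * c1) * Real.exp (b ^ 2) * (3 / 2 : ℝ) ^ A * 2, fun T H hH hHT l => ?_⟩
  have hT1 : 1 ≤ T := hH.trans hHT
  have hT0 : 0 < T := by linarith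
  have hH0 : 0 < H := by linarith
  have huv : T / 2 ≤ 3 * T / 2 := by linarith
  have hpos : ∀ t ∈ Icc (T / 2) (3 * T / 2), 0 < t := fun t ht => by
    have := ht.1
    linarith
  set E : ℝ := Real.exp (b ^ 2) with hE
  have hE0 : 0 < E := Real.exp_pos _
  set R : ℝ := (3 * T / 2) ^ A with hR
  have hR0 : 0 ≤ R := Real.rpow_nonneg (by positivity) _
  have hpA : ∀ t ∈ Icc (T / 2) (3 * T / 2), t ^ A ≤ R := fun t ht =>
    Real.rpow_le_rpow (hpos t ht).le ht.2 hA
  set lam : ℝ := 2 * d / (3 * T) with hlam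
  have hlam0 : 0 < lam := by positivity
  set h : ℝ := Real.sqrt (3 * T / (2 * d)) with hh
  have hh0 : 0 < h := Real.sqrt_pos.2 (by positivity)
  have hlh : lam * h ^ 2 = 1 := by
    rw [hh, Real.sq_sqrt (by positivity), hlam]
    field_simp
  let φ : ℝ → ℝ := fun t => d * (t * Real.log t - β * t) + l * t
  let G : ℝ → ℂ := fun t => cexp (I * (φ t : ℂ))
  let ω : ℝ → ℂ := fun t => I * ((d * (Real.log t + 1 - β) + l : ℝ) : ℂ)
  let ω' : ℝ → ℂ := fun t => I * ((d * t⁻¹ : ℝ) : ℂ)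
  let Ψ : ℝ → ℂ := fun t => wt T H (ln b t) * ((t ^ A : ℝ) : ℂ)
  let Ψ' : ℝ → ℂ := fun t =>
    wt T H (ln b t) * (2 * ((b : ℂ) + (t - T) * I) * I / (H : ℂ) ^ 2) * ((t ^ A : ℝ) : ℂ) +
      wt T H (ln b t) * ((A * t ^ (A - 1) : ℝ) : ℂ)
  have hnG : ∀ t, ‖G t‖ = 1 := fun t => by
    show ‖cexp (I * (φ t : ℂ))‖ = 1
    rw [mul_comm]
    exact Complex.norm_exp_ofReal_mul_I _
  have hΨ : ∀ t ∈ Icc (T / 2) (3 * T / 2), HasDerivAt Ψ (Ψ' t) t := by
    intro t ht
    have h1 := der_wt b T H t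
    have h2 : HasDerivAt (fun t : ℝ => ((t ^ A : ℝ) : ℂ)) ((A * t ^ (A - 1) : ℝ) : ℂ) t :=
      (Real.hasDerivAt_rpow_const (Or.inl (hpos t ht).ne')).ofReal_comp
    exact h1.mul h2
  have hGd : ∀ t ∈ Icc (T / 2) (3 * T / 2), HasDerivAt G (ω t * G t) t := by
    intro t ht
    have h1 : HasDerivAt φ (d * (Real.log t + 1 - β) + l) t := by
      have h2 : HasDerivAt (fun t : ℝ => t * Real.log t) (Real.log t + 1) t :=
        Real.hasDerivAt_mul_log (hpos t ht).ne'
      have h3 := ((h2.sub ((hasDerivAt_id t).const_mul β)).const_mul (d : ℝ)).add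
        ((hasDerivAt_id t).const_mul l)
      refine h3.congr_deriv ?_
      ring
    have h4 := (h1.ofReal_comp.const_mul I).cexp
    refine h4.congr_deriv ?_
    show cexp (I * (φ t : ℂ)) * _ = _ * cexp (I * (φ t : ℂ))
    rw [mul_comm]
  have hωd : ∀ t ∈ Icc (T / 2) (3 * T / 2), HasDerivAt ω (ω' t) t := by
    intro t ht
    have h2 := (Real.hasDerivAt_log (hpos t ht).ne')
    have h3 : HasDerivAt (fun t : ℝ => d * (Real.log t + 1 - β) + l) (d * t⁻¹) t := by
      have h4 := (((h2.add_const 1).sub_const β).const_mul (d : ℝ)).add_const l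
      exact h4
    exact h3.ofReal_comp.const_mul I
  have hwc : Continuous (fun t : ℝ => wt T H (ln b t)) := by
    unfold wt ln
    fun_prop
  have hΨ'c : ContinuousOn Ψ' (Icc (T / 2) (3 * T / 2)) := by
    have h1 : ContinuousOn (fun t : ℝ => ((t ^ A : ℝ) : ℂ)) (Icc (T / 2) (3 * T / 2)) := by
      refine Complex.continuous_ofReal.comp_continuousOn ?_
      exact fun t ht =>
        (Real.continuousAt_rpow_const t A (Or.inl (hpos t ht).ne')).continuousWithinAt
    have h2 : ContinuousOn (fun t : ℝ => ((A * t ^ (A - 1) : ℝ) : ℂ))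
        (Icc (T / 2) (3 * T / 2)) := by
      refine Complex.continuous_ofReal.comp_continuousOn (continuousOn_const.mul ?_)
      exact fun t ht =>
        (Real.continuousAt_rpow_const t (A - 1) (Or.inl (hpos t ht).ne')).continuousWithinAt
    have h3 : Continuous (fun t : ℝ => 2 * ((b : ℂ) + (t - T) * I) * I / (H : ℂ) ^ 2) := by
      fun_prop
    exact ((hwc.mul h3).continuousOn.mul h1).add (hwc.continuousOn.mul h2)
  have hω'c : ContinuousOn ω' (Icc (T / 2) (3 * T / 2)) := by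
    refine continuousOn_const.mul (Complex.continuous_ofReal.comp_continuousOn
      (continuousOn_const.mul ?_))
    exact continuousOn_inv₀.mono fun t ht => (hpos t ht).ne'
  have hmono : ∀ x ∈ Icc (T / 2) (3 * T / 2), ∀ y ∈ Icc (T / 2) (3 * T / 2), x ≤ y →
      lam * (y - x) ≤ (ω y).im - (ω x).im := by
    intro x hx y hy hxy
    have hx0 := hpos x hx
    have hy0 := hpos y hy
    have h1 : (ω y).im - (ω x).im = d * (Real.log y - Real.log x) := by
      show (I * ((d * (Real.log y + 1 - β) + l : ℝ) : ℂ)).im -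
        (I * ((d * (Real.log x + 1 - β) + l : ℝ) : ℂ)).im = _
      rw [Complex.I_mul_im, Complex.I_mul_im, Complex.ofReal_re, Complex.ofReal_re]
      ring
    have h2 : (y - x) / y ≤ Real.log y - Real.log x := by
      have h3 := Real.add_one_le_exp (Real.log x - Real.log y)
      rw [Real.exp_sub, Real.exp_log hx0, Real.exp_log hy0] at h3
      have h4 : (y - x) / y = 1 - x / y := by field_simp
      rw [h4]
      linarith
    have h5 : (y - x) * (2 / (3 * T)) ≤ (y - x) / y := by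
      rw [div_eq_mul_inv (y - x) y]
      refine mul_le_mul_of_nonneg_left ?_ (by linarith)
      rw [← one_div, div_le_div_iff₀ (by positivity) hy0]
      have := hy.2
      linarith
    rw [h1]
    calc lam * (y - x) = d * ((y - x) * (2 / (3 * T))) := by rw [hlam]; ring
      _ ≤ d * (Real.log y - Real.log x) :=
          mul_le_mul_of_nonneg_left (h5.trans h2) (by positivity)
  have hω'b : ∀ t ∈ Icc (T / 2) (3 * T / 2), ‖ω' t‖ ≤ 3 * lam := by
    intro t ht
    have ht0 := hpos t ht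
    show ‖I * ((d * t⁻¹ : ℝ) : ℂ)‖ ≤ _
    rw [norm_mul, Complex.norm_I, one_mul, Complex.norm_real, Real.norm_of_nonneg (by positivity)]
    have h1 : t⁻¹ ≤ 2 / T := by
      rw [← one_div, div_le_div_iff₀ ht0 hT0]
      have := ht.1
      linarith
    calc d * t⁻¹ ≤ d * (2 / T) := mul_le_mul_of_nonneg_left h1 (by positivity)
      _ = 3 * lam := by rw [hlam]; field_simp
  have hwE : ∀ t, ‖wt T H (ln b t)‖ ≤ E := fun t => by
    refine (norm_wt_le b t T H hH).trans ?_
    have h1 : Real.exp (-((t - T) ^ 2 / H ^ 2)) ≤ 1 := by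
      rw [Real.exp_le_one_iff]
      have : 0 ≤ (t - T) ^ 2 / H ^ 2 := by positivity
      linarith
    calc E * Real.exp (-((t - T) ^ 2 / H ^ 2)) ≤ E * 1 := mul_le_mul_of_nonneg_left h1 hE0.le
      _ = E := mul_one E
  have hA0 : ∀ t ∈ Icc (T / 2) (3 * T / 2), ‖Ψ t * G t‖ ≤ E * R := by
    intro t ht
    rw [norm_mul, hnG, mul_one]
    show ‖wt T H (ln b t) * ((t ^ A : ℝ) : ℂ)‖ ≤ _
    rw [norm_mul, Complex.norm_real, Real.norm_of_nonneg (Real.rpow_nonneg (hpos t ht).le _)]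
    exact mul_le_mul (hwE t) (hpA t ht) (Real.rpow_nonneg (hpos t ht).le _) hE0.le
  -- the pointwise bound of the derivative
  have hpt : ∀ t ∈ Icc (T / 2) (3 * T / 2), ‖Ψ' t * G t‖ ≤
      E * R * (2 * (|b| + 1) / H) * Real.exp (-(1 / (2 * H ^ 2)) * (t - T) ^ 2) +
        E * R * (2 * A / T) := by
    intro t ht
    have ht0 := hpos t ht
    rw [norm_mul, hnG, mul_one]
    refine (norm_add_le _ _).trans (add_le_add ?_ ?_)
    · rw [norm_mul, norm_mul, Complex.norm_real, Real.norm_of_nonneg (Real.rpow_nonneg ht0.le _)]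
      have h1 : ‖2 * ((b : ℂ) + (t - T) * I) * I / (H : ℂ) ^ 2‖ ≤ 2 * (|b| + |t - T|) / H ^ 2 := by
        rw [norm_div, norm_mul, norm_mul, Complex.norm_I, mul_one, norm_pow, Complex.norm_real,
          Real.norm_of_nonneg hH0.le]
        refine div_le_div_of_nonneg_right ?_ (by positivity)
        rw [Complex.norm_ofNat]
        refine mul_le_mul_of_nonneg_left ?_ (by norm_num)
        refine (norm_add_le _ _).trans ?_
        rw [norm_mul, Complex.norm_I, mul_one, Complex.norm_real, Real.norm_eq_abs,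
          ← Complex.ofReal_sub, Complex.norm_real, Real.norm_eq_abs]
      have h2 := gauss_le (x := t - T) hb0 hH
      have h3 := norm_wt_le b t T H hH
      have h4 : ‖wt T H (ln b t)‖ * ‖2 * ((b : ℂ) + (t - T) * I) * I / (H : ℂ) ^ 2‖ ≤
          E * Real.exp (-((t - T) ^ 2 / H ^ 2)) * (2 * (|b| + |t - T|) / H ^ 2) :=
        mul_le_mul h3 h1 (norm_nonneg _) (by positivity)
      have h5 : E * Real.exp (-((t - T) ^ 2 / H ^ 2)) * (2 * (|b| + |t - T|) / H ^ 2) ≤
          E * (2 * (|b| + 1) / H * Real.exp (-(1 / (2 * H ^ 2)) * (t - T) ^ 2)) := by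
        rw [mul_assoc]
        refine mul_le_mul_of_nonneg_left ?_ hE0.le
        rw [mul_comm]
        exact h2
      calc _ ≤ E * (2 * (|b| + 1) / H * Real.exp (-(1 / (2 * H ^ 2)) * (t - T) ^ 2)) * R :=
            mul_le_mul (h4.trans h5) (hpA t ht) (Real.rpow_nonneg ht0.le _) (by positivity)
        _ = _ := by ring
    · rw [norm_mul, Complex.norm_real, Real.norm_of_nonneg
        (mul_nonneg hA (Real.rpow_nonneg ht0.le _))]
      have h1 : t ^ (A - 1) ≤ R * (2 / T) := by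
        rw [Real.rpow_sub_one ht0.ne', div_eq_mul_inv]
        refine mul_le_mul (hpA t ht) ?_ (by positivity) hR0
        rw [← one_div, div_le_div_iff₀ ht0 hT0]
        have := ht.1
        linarith
      calc _ ≤ E * (A * (R * (2 / T))) :=
            mul_le_mul (hwE t) (mul_le_mul_of_nonneg_left h1 hA)
              (mul_nonneg hA (Real.rpow_nonneg ht0.le _)) hE0.le
        _ = _ := by ring
  have hGc : ContinuousOn G (Icc (T / 2) (3 * T / 2)) := fun t ht =>
    (hGd t ht).continuousAt.continuousWithinAt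
  have hA1 : ∫ t in (T / 2)..(3 * T / 2), ‖Ψ' t * G t‖ ≤ E * R * c1 := by
    have hi1 : IntervalIntegrable (fun t => ‖Ψ' t * G t‖) volume (T / 2) (3 * T / 2) := by
      apply ContinuousOn.intervalIntegrable
      rw [uIcc_of_le huv]
      exact (hΨ'c.mul hGc).norm
    have hc3 : Continuous (fun t : ℝ => Real.exp (-(1 / (2 * H ^ 2)) * (t - T) ^ 2)) := by fun_prop
    have hi2 : IntervalIntegrable (fun t => E * R * (2 * (|b| + 1) / H) *
        Real.exp (-(1 / (2 * H ^ 2)) * (t - T) ^ 2)) volume (T / 2) (3 * T / 2) :=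
      (continuous_const.mul hc3).intervalIntegrable _ _
    have hi3 : IntervalIntegrable (fun _ : ℝ => E * R * (2 * A / T)) volume (T / 2) (3 * T / 2) :=
      continuous_const.intervalIntegrable _ _
    refine (intervalIntegral.integral_mono_on huv hi1 (hi2.add hi3) hpt).trans ?_
    rw [intervalIntegral.integral_add hi2 hi3, intervalIntegral.integral_const_mul,
      intervalIntegral.integral_const, smul_eq_mul]
    have h1 := gauss_int (T := T) hH huv
    have h2 : E * R * (2 * (|b| + 1) / H) *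
        ∫ t in (T / 2)..(3 * T / 2), Real.exp (-(1 / (2 * H ^ 2)) * (t - T) ^ 2) ≤
        E * R * (2 * (|b| + 1) / H) * (3 * H) := mul_le_mul_of_nonneg_left h1 (by positivity)
    have h3 : E * R * (2 * (|b| + 1) / H) * (3 * H) = E * R * (6 * (|b| + 1)) := by
      field_simp
      ring
    have h4 : (3 * T / 2 - T / 2) * (E * R * (2 * A / T)) = E * R * (2 * A) := by
      field_simp
      ring
    rw [h4]
    rw [h3] at h2
    rw [hc1]
    linarith
  have hfin := H10.Dau.corput huv hlam0 hh0 (by norm_num : (0 : ℝ) ≤ 3)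
    (by positivity : 0 ≤ E * R) hlh hΨ hGd hωd hΨ'c hω'c hmono hω'b hA0 hA1
  refine hfin.trans ?_
  have hhT : h ≤ 2 * T ^ (1 / 2 : ℝ) := by
    rw [← Real.sqrt_eq_rpow, hh, Real.sqrt_le_left (by positivity), mul_pow,
      Real.sq_sqrt hT0.le, div_le_iff₀ (by positivity)]
    nlinarith
  have hRT : R = (3 / 2 : ℝ) ^ A * T ^ A := by
    rw [hR, ← Real.mul_rpow (by norm_num) hT0.le]
    congr 1
    ring
  have hsum : 6 * (E * R) + 2 * (E * R * c1) + 2 * 3 * (E * R) = (12 + 2 * c1) * E * R := by ring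
  have hc10 : 0 ≤ c1 := by positivity
  rw [hsum, Real.rpow_add hT0, hRT]
  calc (12 + 2 * c1) * E * ((3 / 2 : ℝ) ^ A * T ^ A) * h ≤
        (12 + 2 * c1) * E * ((3 / 2 : ℝ) ^ A * T ^ A) * (2 * T ^ (1 / 2 : ℝ)) :=
        mul_le_mul_of_nonneg_left hhT (by positivity)
    _ = _ := by ring

end Pool.Agent.H807.AC
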